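import Mathlib
import Pool.Agent.W845.TR.Fin
import Pool.Agent.W845.TR.Cut
import Pool.Agent.W845.TR.Bri
import Pool.Agent.W564.TR.Strat
import Pool.Agent.W486.TR.Hall
import Pool.Agent.W813.TR.Mat
import Pool.Agent.W215.TR.GG
import Pool.Agent.W214.TR.Aw1
import Pool.Agent.W215.TR.AW2
import Pool.Agent.W486.TR.Der
import Pool.Agent.W327.TR.Csi
import Pool.Agent.W38.TR.LLN
import Pool.Agent.W395.TR.AWF
import Pool.Agent.W19.TR.Shift
import Pool.Agent.W19.TR.Walk
import Pool.Agent.W918.TR.Perm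
import Pool.Agent.W839.TR.Kappa
import Pool.Agent.W612.TR.Conc
import Pool.Agent.W486.TR.Dev
import Pool.Agent.W998.TR.Iso
import Pool.Agent.W135.TR.Cg
import Pool.Agent.W845.TR.SeqH
import Pool.Agent.W136.TR.Count
import Pool.Agent.W462.TR.Pei
import Pool.Agent.W613.TR.Suma
import Pool.Agent.W683.TR.Chn
import Pool.Agent.W683.TR.Bad

/-!
# Draws in the game Trap on site percolation of `Z^d`

Every vertex of `Z^d` is closed with probability `p`, independently. The game Trap from the origin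
on the open subgraph is a draw with positive probability for some `p > 0` if and only if
`d ≥ 3`. More precisely, for `d ∈ {1, 2}` and every `p > 0` there is almost surely no draw, and for
`d ≥ 3` the probability of a draw tends to one as `p` tends to zero.
-/

open MeasureTheory

namespace Pool.Agent.Results.MP_985e29_pr.DrawsIffDimThree

open Pool.Agent.W845.TR

theorem result :
    (∀ d : ℕ, 1 ≤ d →
      ((∃ p : unitInterval, 0 < (p : ℝ) ∧ 0 < Perc d p {ω | Draw (opn ω) 0}) ↔ 3 ≤ d)) ∧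
    (∀ d : ℕ, 1 ≤ d → d ≤ 2 → ∀ p : unitInterval, 0 < (p : ℝ) →
      Perc d p {ω | Draw (opn ω) 0} = 0) ∧
    (∀ d : ℕ, 3 ≤ d → ∀ ε : ℝ, 0 < ε → ∃ p0 : ℝ, 0 < p0 ∧ ∀ p : unitInterval, 0 < (p : ℝ) →
      (p : ℝ) ≤ p0 → ENNReal.ofReal (1 - ε) ≤ Perc d p {ω | Draw (opn ω) 0}) := by
  have hmat : St_MAT := Pool.Agent.W813.TR.mat Pool.Agent.W486.TR.hall
  have hg1 : St_G1 := Pool.Agent.W215.TR.g1 hmat
  have hg2 : St_G2 := Pool.Agent.W215.TR.g2 hmat
  have hgd1 : St_GD1 := Pool.Agent.W215.TR.gd1 hmat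
  have hgd2 : St_GD2 := Pool.Agent.W215.TR.gd2 hmat
  have haw1 : St_AW1 := Pool.Agent.W214.TR.aw1 hg1 hg2 hgd1 hgd2
  have hawf : St_AWF := Pool.Agent.W395.TR.AWF.awf haw1 Pool.Agent.W215.TR.aw2
    Pool.Agent.W486.TR.der Pool.Agent.W327.TR.csi Pool.Agent.W38.TR.mean Pool.Agent.W38.TR.lln
  have hshift : St_SHIFT := Pool.Agent.W19.TRShift.shift cut
  have hcg : St_CG := Pool.Agent.W135.TR.cgt Pool.Agent.W998.TR.iso
  have hord : St_ORD := Pool.Agent.W19.TRWalk.ord Pool.Agent.W19.TRWalk.walk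
  have hcount : St_COUNT := Pool.Agent.W136.TR.count hcg hord Pool.Agent.W845.TRSeq.seq
  have hdev : St_DEV := Pool.Agent.W486.TR.dev Pool.Agent.W612.TR.conc
  have hpei : St_PEI := Pool.Agent.W462.TR.pei hcg hcount
  have hchn : St_CHN := Pool.Agent.W683.TR.chn hcount hdev Pool.Agent.W918.TR.perm hcg
    Pool.Agent.W613.TR.suma
  have hbad : St_BAD := Pool.Agent.W683.TR.bad hshift hpei hchn Pool.Agent.W839.TR.kappa
  exact main Pool.Agent.W564.TR.strat hgd1 hgd2 hbad bri hawf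

end Pool.Agent.Results.MP_985e29_pr.DrawsIffDimThree
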